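import Pool.Agent.Q26.TL.Core

/-!
# The Beilinson–Soulé conjecture in one characteristic is decided in degree `0` by one field
-/

set_option autoImplicit false

namespace Pool.Agent.Q26.SP.Zero

open Pool.Agent.Q26.TL AlgebraicGeometry CategoryTheory Cardinal

/-- `P` is a prime field: it has no proper subfield -/
def IsPrimeField (P : Type) [Field P] : Prop := (⊥ : Subfield P) = ⊤

/-- `Spec k` -/
noncomputable abbrev SpecF (k : Type) [Field k] : Scheme.{0} := Spec (.of k)

/-- smooth, separated and quasi-compact over `k` -/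
def IsSm (k : Type) [Field k] (X : Scheme.{0}) (f : X ⟶ SpecF k) : Prop :=
  Smooth f ∧ IsSeparated f ∧ QuasiCompact f

/-- groups attached to fields (`A F i n` stands for `Hⁱ(F, ℤ(n))`) -/
abbrev FieldGroups := ∀ (F : Type) [Field F], ℤ → ℤ → AddCommGrpCat.{0}

/-- groups attached to schemes over fields (`S k X f i n` stands for the sections over `X` of the
sheaf `ℋⁱ(ℤ(n))` on `Sm/k`) -/
abbrev SchemeGroups := ∀ (k : Type) [Field k] (X : Scheme.{0}), (X ⟶ SpecF k) → ℤ → ℤ →
  AddCommGrpCat.{0}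

/-- the sheaves `ℋⁱ(ℤ(n))` on `Sm/k` vanish for all `i ≤ 0` and `n ≥ 1` -/
def SheavesVanishOver (S : SchemeGroups) (k : Type) [Field k] : Prop :=
  ∀ i n : ℤ, i ≤ 0 → 1 ≤ n → ∀ (X : Scheme.{0}) (f : X ⟶ SpecF k), IsSm k X f →
    Subsingleton (S k X f i n)

/-- the codimension of a point, i.e. the dimension of its local ring -/
noncomputable def codim (X : Scheme.{0}) (p : X) : WithBot ℕ∞ := ringKrullDim (X.presheaf.stalk p)

/-- for perfect `k` and smooth `X` over `k`, if `Hⁱ(κ(p), ℤ(n)) = 0` at all points `p` of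
codimension zero, then `ℋⁱ(ℤ(n))(X) = 0` -/
def Gersten (A : FieldGroups) (S : SchemeGroups) : Prop :=
  ∀ (k : Type) [Field k] [PerfectField k] (X : Scheme.{0}) (f : X ⟶ SpecF k), IsSm k X f →
    ∀ i n : ℤ, (∀ p : X, codim X p = 0 → Subsingleton (A (X.residueField p) i n)) →
      Subsingleton (S k X f i n)

/-- in a given characteristic perfect fields suffice -/
def PerfectSuffices (S : SchemeGroups) : Prop :=
  ∀ (P : Type) [Field P], IsPrimeField P →
    (∀ (k : Type) [Field k] [PerfectField k] [Algebra P k], SheavesVanishOver S k) →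
    ∀ (k : Type) [Field k] [Algebra P k], SheavesVanishOver S k

/-- sections over `Spec k` for algebraically closed `k` -/
def AtPoint (A : FieldGroups) (S : SchemeGroups) : Prop :=
  ∀ (k : Type) [Field k] [IsAlgClosed k] (i n : ℤ),
    Nonempty (S k (SpecF k) (𝟙 _) i n ≃+ A k i n)

/-- `Hⁱ(F, ℚ(n)) = Hⁱ(F, ℤ(n)) ⊗ ℚ`: there is a homomorphism whose kernel is torsion and whose
image spans -/
def Rational (H : ℤ → ℤ → Fun) (A : FieldGroups) : Prop :=
  ∀ (F : Type) [Field F] (i n : ℤ), ∃ q : A F i n →+ V (H i n) F,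
    (∀ x, q x = 0 → ∃ m : ℕ, m ≠ 0 ∧ m • x = 0) ∧ ∀ y, ∃ m : ℕ, m ≠ 0 ∧ ∃ x, q x = m • y

/-- `Hⁱ(F, ℤ(n))` is torsion free for `i ≤ 0` and `n ≥ 1` -/
def TorsionFree (A : FieldGroups) : Prop :=
  ∀ (F : Type) [Field F] (i n : ℤ), i ≤ 0 → 1 ≤ n → ∀ (x : A F i n) (m : ℕ), m ≠ 0 →
    m • x = 0 → x = 0

/-- `Hⁱ(k, ℚ(n)) = 0` for `i ≤ 0`, `n ≥ 1` and `k` an algebraic closure of a prime field -/
def Base (H : ℤ → ℤ → Fun) : Prop :=
  ∀ (P k : Type) [Field P] [Field k] [Algebra P k] [IsAlgClosure P k], IsPrimeField P →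
    ∀ i n : ℤ, i ≤ 0 → 1 ≤ n → ∀ x : V (H i n) k, x = 0

/-- Motivic cohomology: the rational theory `H i n = Hⁱ(-, ℚ(n))` on rings (see `Theory`), the
groups `HZ F i n = Hⁱ(F, ℤ(n))` of fields, the groups `sh k X f i n` of sections over `X` of the
Zariski sheaf `ℋⁱ(ℤ(n))` on `Sm/k`, and the published facts about them. -/
structure Motivic extends Theory where
  HZ : FieldGroups
  sh : SchemeGroups
  rational : Rational H HZ
  torsionFree : TorsionFree HZ
  base : Base H
  gersten : Gersten HZ sh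
  perfect : PerfectSuffices sh
  point : AtPoint HZ sh

/-- the statement of the question: `ℋⁱ(ℤ(n)) = 0` on `Sm/k` for all fields `k`, `n ≥ 1`, `i ≤ 0` -/
def Question (M : Motivic) : Prop := ∀ (k : Type) [Field k], SheavesVanishOver M.sh k

/-- the statement for all fields of the characteristic of the prime field `P` -/
def SheavesVanish (M : Motivic) (P : Type) [Field P] : Prop :=
  ∀ (k : Type) [Field k] [Algebra P k], SheavesVanishOver M.sh k

/-- `Hⁱ(F, ℤ(n)) = 0` for all fields `F` of the characteristic of `P`, all `i ≤ 0`, `n ≥ 1` -/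
def FieldsVanish (M : Motivic) (P : Type) [Field P] : Prop :=
  ∀ (F : Type) [Field F] [Algebra P F] (i n : ℤ), i ≤ 0 → 1 ≤ n → Subsingleton (M.HZ F i n)

/-- `H⁰(Ω, ℤ(n)) = 0` for all `n ≥ 1` -/
def ZeroVanish (M : Motivic) (Ω : Type) [Field Ω] : Prop :=
  ∀ n : ℤ, 1 ≤ n → Subsingleton (M.HZ Ω 0 n)

/-- the dimension of `H⁰(Ω, ℚ(n))` is less than the cardinality of `I` for all `n ≥ 1` -/
def ZeroSmall (M : Motivic) (Ω : Type) [Field Ω] (I : Type) : Prop :=
  ∀ n : ℤ, 1 ≤ n → Module.rank ℚ (V (M.H 0 n) Ω) < #I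

/-- for `i ≤ 0` and `n ≥ 1` the space `Hⁱ(Ω, ℚ(n))` is zero or has dimension at least the
cardinality of `I` -/
def Law (M : Motivic) (Ω : Type) [Field Ω] (I : Type) : Prop :=
  ∀ i n : ℤ, i ≤ 0 → 1 ≤ n → (∀ x : V (M.H i n) Ω, x = 0) ∨ #I ≤ Module.rank ℚ (V (M.H i n) Ω)

theorem isPrimeField_bot (k : Type) [Field k] : IsPrimeField (⊥ : Subfield k) := by
  unfold IsPrimeField
  rw [eq_top_iff]
  rintro ⟨x, hx⟩ -
  have h1 : (⊥ : Subfield k) ≤ (⊥ : Subfield (⊥ : Subfield k)).map (⊥ : Subfield k).subtype :=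
    bot_le
  obtain ⟨y, hy, hyx⟩ := h1 hx
  have h2 : y = ⟨x, hx⟩ := Subtype.ext hyx
  rwa [← h2]

theorem rational_zero (M : Motivic) (F : Type) [Field F] (i n : ℤ)
    (h : Subsingleton (M.HZ F i n)) (y : V (M.H i n) F) : y = 0 := by
  obtain ⟨q, -, hq⟩ := M.rational F i n
  obtain ⟨m, hm, x, hx⟩ := hq y
  rw [Subsingleton.elim x 0, map_zero] at hx
  have h1 : (m : ℚ) • y = 0 := by
    rw [Nat.cast_smul_eq_nsmul]
    exact hx.symm
  rcases smul_eq_zero.1 h1 with h2 | h2
  · exact absurd (by exact_mod_cast h2) hm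
  · exact h2

/-- Let `P` be a prime field and let `Ω` be an algebraically closed field with an infinite
transcendence basis `b : I → Ω` over `P`. The following are equivalent:

1. `ℋⁱ(ℤ(n)) = 0` on `Sm/k` for all fields `k` of the characteristic of `P`, `n ≥ 1`, `i ≤ 0`;
2. `H⁰(Ω, ℤ(n)) = 0` for all `n ≥ 1`;
3. the dimension of `H⁰(Ω, ℚ(n))` is less than the transcendence degree of `Ω`, for all `n ≥ 1`;
4. `Hⁱ(F, ℤ(n)) = 0` for all fields `F` of the characteristic of `P`, `n ≥ 1`, `i ≤ 0`.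

Moreover `Hⁱ(Ω, ℚ(n))` is zero or of dimension at least the transcendence degree of `Ω`, for all
`n ≥ 1`, `i ≤ 0`, and the question is the conjunction of 1. over all prime fields. -/
theorem main (M : Motivic) :
    (Question M ↔ ∀ (P : Type) [Field P], IsPrimeField P → SheavesVanish M P) ∧
    ∀ (P Ω I : Type) [Field P] [Field Ω] [Algebra P Ω] [IsAlgClosed Ω] [Infinite I] (b : I → Ω),
      IsPrimeField P → IsTranscendenceBasis P b →
      [SheavesVanish M P, ZeroVanish M Ω, ZeroSmall M Ω I, FieldsVanish M P].TFAE ∧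
        Law M Ω I := by
  refine ⟨⟨fun h P _ _ k _ _ => h k, fun h k _ => h (⊥ : Subfield k) (isPrimeField_bot k) k⟩, ?_⟩
  intro P Ω I _ _ _ _ _ b hP hb
  have hlaw : ∀ i n : ℤ, i ≤ 0 → 1 ≤ n → ∀ x : V (M.H i n) Ω, x ≠ 0 →
      #I ≤ Module.rank ℚ (V (M.H i n) Ω) := by
    intro i n hi hn x hx
    obtain ⟨v, hv⟩ := exists_linearIndependent (M.good i n) b hb
      (fun k _ _ _ => M.base P k hP i n hi hn) x hx
    exact hv.cardinal_le_rank
  refine ⟨?_, ?_⟩
  · tfae_have 1 → 2 := by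
      intro h n hn
      have h1 : IsSm Ω (SpecF Ω) (𝟙 _) := ⟨inferInstance, inferInstance, inferInstance⟩
      have h2 := h Ω 0 n le_rfl hn (SpecF Ω) (𝟙 _) h1
      obtain ⟨e⟩ := M.point Ω 0 n
      exact e.symm.injective.subsingleton
    tfae_have 2 → 3 := by
      intro h n hn
      have h1 := h n hn
      have : Subsingleton (V (M.H 0 n) Ω) :=
        ⟨fun x y => (rational_zero M Ω 0 n h1 x).trans (rational_zero M Ω 0 n h1 y).symm⟩
      rw [rank_subsingleton']
      exact aleph0_pos.trans_le (aleph0_le_mk I)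
    tfae_have 3 → 4 := by
      intro h F _ _ i n hi hn
      by_contra hne
      obtain ⟨q, hq, -⟩ := M.rational F i n
      have h1 : ∃ x : M.HZ F i n, x ≠ 0 := by
        by_contra h2
        push Not at h2
        exact hne ⟨fun x y => (h2 x).trans (h2 y).symm⟩
      obtain ⟨x, hx⟩ := h1
      have h2 : q x ≠ 0 := by
        intro h3
        obtain ⟨m, hm, h4⟩ := hq x h3
        exact hx (M.torsionFree F i n hi hn x m hm h4)
      obtain ⟨m, hm⟩ := Int.eq_ofNat_of_zero_le (show 0 ≤ -i by omega)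
      have h5 := M.toTheory.exists_units (P := P) m i n F (q x) h2
      rw [show i + (m : ℤ) = 0 by omega] at h5
      obtain ⟨F', _, _, y, hy⟩ := h5
      obtain ⟨z, hz⟩ := exists_ne_zero (M.good _ _) b hb.1 y hy
      exact absurd (h _ (by omega)) (not_lt.2 (hlaw 0 _ le_rfl (by omega) z hz))
    tfae_have 4 → 1 := by
      intro h
      refine M.perfect P hP ?_
      intro k _ _ _ i n hi hn X f hf
      refine M.gersten k X f hf i n fun p _ => ?_
      let : Algebra P (X.residueField p) :=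
        ((Spec.preimage (X.fromSpecResidueField p ≫ f)).hom.comp (algebraMap P k)).toAlgebra
      exact h (X.residueField p) i n hi hn
    tfae_finish
  · intro i n hi hn
    by_cases h : ∀ x : V (M.H i n) Ω, x = 0
    · exact Or.inl h
    · right
      push Not at h
      obtain ⟨x, hx⟩ := h
      exact hlaw i n hi hn x hx

end Pool.Agent.Q26.SP.Zero
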